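import Pool.Agent.Helper64.LN.GoalsB

set_option autoImplicit false

/-! Packet LN-G1: elements of a good group with a common boundary fixed point commute. -/

open Topology Filter Set Metric UpperHalfPlane
open scoped MatrixGroups

namespace Pool.Agent.Helper81.LN

open Pool.Agent.Helper64.LN

/-- The translation matrix. -/
noncomputable def tr (t : ℝ) : SL(2, ℝ) := ⟨!![1, t; 0, 1], by simp [Matrix.det_fin_two]⟩

/-- An upper triangular matrix. -/
noncomputable def ut (a b : ℝ) (ha : a ≠ 0) : SL(2, ℝ) :=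
  ⟨!![a, b; 0, a⁻¹], by simp [Matrix.det_fin_two, ha]⟩

lemma eq_ut (M : SL(2, ℝ)) (a : ℝ) (h0 : M 0 0 = a) (h1 : M 1 0 = 0) :
    ∃ (b : ℝ) (ha : a ≠ 0), M = ut a b ha := by
  have hdet := M.det_coe
  rw [Matrix.det_fin_two] at hdet
  rw [h1, h0, mul_zero, sub_zero] at hdet
  have ha : a ≠ 0 := by
    rintro rfl
    simp at hdet
  refine ⟨M 0 1, ha, ?_⟩
  ext i j
  fin_cases i <;> fin_cases j
  · exact h0
  · rfl
  · exact h1
  · change M 1 1 = a⁻¹
    exact eq_inv_of_mul_eq_one_right hdet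

lemma tr_smul_I (t : ℝ) : ((tr t • UpperHalfPlane.I : ℍ) : ℂ) = (t : ℂ) + Complex.I := by
  rw [UpperHalfPlane.specialLinearGroup_apply]
  simp [tr]
  ring

lemma ut_inv (a b : ℝ) (ha : a ≠ 0) : (ut a b ha)⁻¹ = ut a⁻¹ (-b) (inv_ne_zero ha) := by
  ext i j
  fin_cases i <;> fin_cases j <;>
    simp [ut, Matrix.SpecialLinearGroup.coe_inv, Matrix.adjugate_fin_two]

lemma ut_mul (a b : ℝ) (ha : a ≠ 0) (c d : ℝ) (hc : c ≠ 0) :
    ut a b ha * ut c d hc = ut (a * c) (a * d + b * c⁻¹) (mul_ne_zero ha hc) := by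
  ext i j
  fin_cases i <;> fin_cases j <;>
    simp [ut, Matrix.SpecialLinearGroup.coe_mul, Matrix.mul_apply, Fin.sum_univ_two, mul_comm]

lemma tr_eq (t : ℝ) : tr t = ut 1 t one_ne_zero := by
  ext i j
  fin_cases i <;> fin_cases j <;> simp [ut, tr]

lemma ut_congr {a b a' b' : ℝ} (ha : a ≠ 0) (ha' : a' ≠ 0) (h1 : a = a') (h2 : b = b') :
    ut a b ha = ut a' b' ha' := by
  subst h1 h2
  rfl

lemma ut_conj_tr (a b : ℝ) (ha : a ≠ 0) (t : ℝ) :
    ut a b ha * tr t * (ut a b ha)⁻¹ = tr (a ^ 2 * t) := by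
  rw [tr_eq, tr_eq, ut_inv, ut_mul, ut_mul]
  apply ut_congr
  · field_simp
  · field_simp
    ring

lemma tr_inj {s t : ℝ} (h : tr s = tr t) : s = t := by
  have := congrArg (fun M : SL(2, ℝ) => M 0 1) h
  simpa [tr] using this

lemma pow_conj_tr (a b : ℝ) (ha : a ≠ 0) (t : ℝ) (n : ℕ) :
    (ut a b ha) ^ n * tr t * ((ut a b ha) ^ n)⁻¹ = tr ((a ^ 2) ^ n * t) := by
  induction n with
  | zero => simp
  | succ n ih =>
    have e : (ut a b ha) ^ (n + 1) * tr t * ((ut a b ha) ^ (n + 1))⁻¹ =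
        ut a b ha * ((ut a b ha) ^ n * tr t * ((ut a b ha) ^ n)⁻¹) * (ut a b ha)⁻¹ := by
      rw [pow_succ']
      group
    rw [e, ih, ut_conj_tr]
    congr 1
    ring

/-- The key step. -/
lemma key (Γ : Subgroup SL(2, ℝ)) (hΓ : Good Γ) (k g c : SL(2, ℝ)) (hg : g ∈ Γ) (hc : c ∈ Γ)
    (a b : ℝ) (ha : a ≠ 0) (t : ℝ) (h1 : k⁻¹ * g * k = ut a b ha) (h2 : k⁻¹ * c * k = tr t)
    (hlt : |a| < 1) : t = 0 := by
  by_contra ht
  set z₀ : ℍ := k • UpperHalfPlane.I with hz₀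
  have ha2 : a ^ 2 < 1 := by
    rw [← sq_abs]
    have := abs_nonneg a
    nlinarith
  have ha0 : 0 < a ^ 2 := by positivity
  -- the conjugates
  have hconj : ∀ n : ℕ, g ^ n * c * (g ^ n)⁻¹ = k * tr ((a ^ 2) ^ n * t) * k⁻¹ := by
    intro n
    rw [← pow_conj_tr a b ha t n, ← h1, ← h2]
    have e : (k⁻¹ * g * k) ^ n = k⁻¹ * g ^ n * k := by
      have := conj_pow (a := k⁻¹) (b := g) (i := n)
      simpa using this
    rw [e]
    group
  have hinj : Function.Injective (fun n : ℕ => g ^ n * c * (g ^ n)⁻¹) := by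
    intro m n hmn
    simp only [hconj] at hmn
    have h3 : tr ((a ^ 2) ^ m * t) = tr ((a ^ 2) ^ n * t) := by
      have := mul_right_cancel hmn
      exact mul_left_cancel this
    have h4 := tr_inj h3
    have h5 : (a ^ 2) ^ m = (a ^ 2) ^ n := mul_right_cancel₀ ht h4
    exact (pow_right_strictAnti₀ ha0 ha2).injective h5
  -- the compact set
  set f : ℝ → ℍ := fun s => k • (tr s • UpperHalfPlane.I) with hf
  have hcont : Continuous f := by
    have h3 : Continuous (fun s : ℝ => (tr s • UpperHalfPlane.I : ℍ)) := by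
      rw [UpperHalfPlane.isEmbedding_coe.continuous_iff]
      have : ((fun z : ℍ => (z : ℂ)) ∘ fun s : ℝ => (tr s • UpperHalfPlane.I : ℍ)) =
          fun s : ℝ => (s : ℂ) + Complex.I := by
        funext s
        exact tr_smul_I s
      have h4 : Continuous fun s : ℝ => (s : ℂ) + Complex.I := by fun_prop
      rw [← this] at h4
      exact h4
    exact (mh k).continuous.comp h3
  have hL : IsCompact (f '' Icc (-|t|) |t|) := isCompact_Icc.image hcont
  have hfin := hΓ.disc _ hL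
  apply (infinite_range_of_injective hinj)
  refine hfin.subset ?_
  rintro _ ⟨n, rfl⟩
  refine ⟨?_, k • UpperHalfPlane.I, ⟨0, ?_, ?_⟩, ?_⟩
  · exact Γ.mul_mem (Γ.mul_mem (Γ.pow_mem hg n) hc) (Γ.inv_mem (Γ.pow_mem hg n))
  · exact ⟨by simp, by simp⟩
  · change k • (tr 0 • UpperHalfPlane.I) = k • UpperHalfPlane.I
    have : tr 0 = 1 := by
      ext i j
      fin_cases i <;> fin_cases j <;> simp [tr]
    rw [this, one_smul]
  · refine ⟨(a ^ 2) ^ n * t, ?_, ?_⟩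
    · rw [mem_Icc, ← abs_le, abs_mul]
      have h3 : |(a ^ 2) ^ n| ≤ 1 := by
        rw [abs_of_pos (by positivity)]
        exact pow_le_one₀ ha0.le ha2.le
      nlinarith [abs_nonneg t]
    · change k • (tr ((a ^ 2) ^ n * t) • UpperHalfPlane.I) =
        (g ^ n * c * (g ^ n)⁻¹) • (k • UpperHalfPlane.I)
      rw [hconj, smul_smul, smul_smul]
      congr 1
      group

theorem goalG1 : GoalG1 := by
  intro Γ hΓ g hg h hh v μ ν hv hg1 hg2 hh1 hh2
  set N : ℝ := v.1 ^ 2 + v.2 ^ 2 with hN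
  have hNpos : 0 < N := by
    by_contra h0
    have h1 : v.1 ^ 2 + v.2 ^ 2 ≤ 0 := not_lt.1 h0
    have h2 : v.1 = 0 := by nlinarith [sq_nonneg v.1, sq_nonneg v.2]
    have h3 : v.2 = 0 := by nlinarith [sq_nonneg v.1, sq_nonneg v.2]
    exact hv (Prod.ext h2 h3)
  have hN0 : N ≠ 0 := hNpos.ne'
  set k : SL(2, ℝ) := ⟨!![v.1, -v.2 / N; v.2, v.1 / N], by
    rw [Matrix.det_fin_two]
    simp only [Matrix.of_apply, Matrix.cons_val', Matrix.cons_val_zero, Matrix.cons_val_one,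
      Matrix.cons_val_fin_one]
    field_simp
    rw [hN]
    ring⟩ with hk
  have e00 : k 0 0 = v.1 := rfl
  have e01 : k 0 1 = -v.2 / N := rfl
  have e10 : k 1 0 = v.2 := rfl
  have e11 : k 1 1 = v.1 / N := rfl
  have hconj : ∀ (M : SL(2, ℝ)) (ρ : ℝ), M 0 0 * v.1 + M 0 1 * v.2 = ρ * v.1 →
      M 1 0 * v.1 + M 1 1 * v.2 = ρ * v.2 →
      (k⁻¹ * M * k) 0 0 = ρ ∧ (k⁻¹ * M * k) 1 0 = 0 := by
    intro M ρ h1 h2
    simp only [Matrix.SpecialLinearGroup.coe_mul, Matrix.SpecialLinearGroup.coe_inv,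
      Matrix.adjugate_fin_two, Matrix.mul_apply, Fin.sum_univ_two, Matrix.of_apply,
      Matrix.cons_val', Matrix.cons_val_zero, Matrix.cons_val_one, Matrix.cons_val_fin_one]
    rw [e00, e01, e10, e11]
    constructor
    · have : (v.1 / N * M 0 0 + -(-v.2 / N) * M 1 0) * v.1 +
          (v.1 / N * M 0 1 + -(-v.2 / N) * M 1 1) * v.2 =
          (v.1 * (M 0 0 * v.1 + M 0 1 * v.2) + v.2 * (M 1 0 * v.1 + M 1 1 * v.2)) / N := by
        ring
      rw [this, h1, h2, div_eq_iff hN0, hN]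
      ring
    · have : (-v.2 * M 0 0 + v.1 * M 1 0) * v.1 + (-v.2 * M 0 1 + v.1 * M 1 1) * v.2 =
          -v.2 * (M 0 0 * v.1 + M 0 1 * v.2) + v.1 * (M 1 0 * v.1 + M 1 1 * v.2) := by
        ring
      rw [this, h1, h2]
      ring
  obtain ⟨g0, g1⟩ := hconj g μ hg1 hg2
  obtain ⟨h0, h1⟩ := hconj h ν hh1 hh2
  obtain ⟨b, hμ, hgu⟩ := eq_ut _ μ g0 g1
  obtain ⟨d, hν, hhu⟩ := eq_ut _ ν h0 h1
  set c : SL(2, ℝ) := g * h * g⁻¹ * h⁻¹ with hc
  have hcΓ : c ∈ Γ := Γ.mul_mem (Γ.mul_mem (Γ.mul_mem hg hh) (Γ.inv_mem hg)) (Γ.inv_mem hh)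
  have hgi : k⁻¹ * g⁻¹ * k = ut μ⁻¹ (-b) (inv_ne_zero hμ) := by
    rw [← ut_inv μ b hμ, ← hgu]
    group
  have hhi : k⁻¹ * h⁻¹ * k = ut ν⁻¹ (-d) (inv_ne_zero hν) := by
    rw [← ut_inv ν d hν, ← hhu]
    group
  obtain ⟨t, hct⟩ : ∃ t, k⁻¹ * c * k = tr t := by
    have e : k⁻¹ * c * k = (k⁻¹ * g * k) * (k⁻¹ * h * k) * (k⁻¹ * g⁻¹ * k) * (k⁻¹ * h⁻¹ * k) := by
      rw [hc]
      group
    refine ⟨μ * ν * μ⁻¹ * -d + (μ * ν * -b + (μ * d + b * ν⁻¹) * μ⁻¹⁻¹) * ν⁻¹⁻¹, ?_⟩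
    rw [e, hgu, hhu, hgi, hhi, ut_mul μ b hμ ν d hν, ut_mul, ut_mul, tr_eq]
    apply ut_congr
    · field_simp
    · rfl
  have ht : t = 0 := by
    rcases lt_trichotomy |μ| 1 with hm | hm | hm
    · exact key Γ hΓ k g c hg hcΓ μ b hμ t hgu hct hm
    · rcases lt_trichotomy |ν| 1 with hn | hn | hn
      · exact key Γ hΓ k h c hh hcΓ ν d hν t hhu hct hn
      · have hμ1 : μ⁻¹ = μ := by
          have : μ * μ = 1 := by
            rw [← abs_mul_abs_self, hm, one_mul]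
          exact inv_eq_of_mul_eq_one_right this
        have hν1 : ν⁻¹ = ν := by
          have : ν * ν = 1 := by
            rw [← abs_mul_abs_self, hn, one_mul]
          exact inv_eq_of_mul_eq_one_right this
        have hcomm : (k⁻¹ * g * k) * (k⁻¹ * h * k) = (k⁻¹ * h * k) * (k⁻¹ * g * k) := by
          rw [hgu, hhu, ut_mul, ut_mul]
          apply ut_congr
          · ring
          · rw [hμ1, hν1]
            ring
        have e : k⁻¹ * c * k =
            (k⁻¹ * g * k) * (k⁻¹ * h * k) * ((k⁻¹ * h * k) * (k⁻¹ * g * k))⁻¹ := by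
          rw [hc]
          group
        rw [e, hcomm, mul_inv_cancel] at hct
        have h3 : tr 0 = tr t := by
          rw [← hct]
          ext i j
          fin_cases i <;> fin_cases j <;> simp [tr]
        exact (tr_inj h3).symm
      · refine key Γ hΓ k h⁻¹ c (Γ.inv_mem hh) hcΓ ν⁻¹ (-d) (inv_ne_zero hν) t hhi hct ?_
        rw [abs_inv]
        exact inv_lt_one_of_one_lt₀ hn
    · refine key Γ hΓ k g⁻¹ c (Γ.inv_mem hg) hcΓ μ⁻¹ (-b) (inv_ne_zero hμ) t hgi hct ?_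
      rw [abs_inv]
      exact inv_lt_one_of_one_lt₀ hm
  have hc1 : c = 1 := by
    have h3 : k⁻¹ * c * k = 1 := by
      rw [hct, ht]
      ext i j
      fin_cases i <;> fin_cases j <;> simp [tr]
    have h4 : c = k * (k⁻¹ * c * k) * k⁻¹ := by group
    rw [h4, h3]
    group
  have hgh : g * h = h * g := by
    have h3 : c * (h * g) = g * h := by
      rw [hc]
      group
    rw [← h3, hc1, one_mul]
  rw [← map_mul, ← map_mul, hgh]

end Pool.Agent.Helper81.LN
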