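import Pool.Agent.Helper64.LN.GoalsC
import Pool.Agent.Helper90.BigC12

set_option autoImplicit false

/-! Packet LN-OR: the twists preserve the orientation. -/

open Topology Filter Set Metric
open Pool.Agent.Helper78.BigMap

namespace Pool.Agent.Helper81.LN

open Pool.Agent.Helper64.LN

lemma posAt_congr' {F G : ℂ → ℂ} {z : ℂ} (h : PosAt F z) (hFG : ∀ᶠ w in 𝓝 z, G w = F w) :
    PosAt G z := by
  obtain ⟨ε, hε, hb⟩ := Metric.eventually_nhds_iff.1 hFG
  unfold PosAt at h ⊢
  have h2 : ∀ᶠ r : ℝ in 𝓝[>] 0, r < ε := by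
    exact mem_nhdsWithin_of_mem_nhds (Iio_mem_nhds hε)
  have h3 : ∀ᶠ r : ℝ in 𝓝[>] 0, 0 < r := self_mem_nhdsWithin
  filter_upwards [h, h2, h3] with r hr hr2 hr3
  obtain ⟨u, hu1, hu2, hu3⟩ := hr
  refine ⟨u, hu1, fun t => ?_, hu3⟩
  have e1 : G z = F z := hb (by simpa using hε)
  have e2 : G (z + r * Complex.exp (t * Complex.I)) = F (z + r * Complex.exp (t * Complex.I)) := by
    apply hb
    rw [dist_eq_norm, add_sub_cancel_left, norm_mul, Complex.norm_exp_ofReal_mul_I, mul_one,
      Complex.norm_real, Real.norm_eq_abs, abs_of_pos hr3]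
    exact hr2
  rw [e1, e2, hu2 t]

/-- The isotopy. -/
noncomputable def twi (s : ℝ) (z : ℂ) : ℂ :=
  z * Complex.exp (((2 * Real.pi * s * cho ‖z‖ : ℝ) : ℂ) * Complex.I)

lemma norm_twi (s : ℝ) (z : ℂ) : ‖twi s z‖ = ‖z‖ := by
  unfold twi
  rw [norm_mul, Complex.norm_exp_ofReal_mul_I, mul_one]

lemma twi_twi (s t : ℝ) (z : ℂ) : twi s (twi t z) = twi (s + t) z := by
  conv_lhs => rw [twi, norm_twi]
  unfold twi
  rw [mul_assoc, ← Complex.exp_add]
  congr 2
  push_cast
  ring

lemma twi_zero (z : ℂ) : twi 0 z = z := by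
  unfold twi
  simp

lemma twi_one (z : ℂ) : twi 1 z = twm cho z := by
  unfold twi twm
  congr 2
  push_cast
  ring

lemma continuous_twi : Continuous (fun p : ℝ × ℂ => twi p.1 p.2) := by
  unfold twi cho
  fun_prop

lemma twi_inj (s : ℝ) : Function.Injective (twi s) := by
  intro z w h
  have h2 := congrArg (twi (-s)) h
  rwa [twi_twi, twi_twi, neg_add_cancel, twi_zero, twi_zero] at h2

lemma norm_twm (z : ℂ) : ‖twm cho z‖ = ‖z‖ := by
  rw [← twi_one, norm_twi]

lemma twm_pos (z : ℂ) : PosAt (twm cho) z := by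
  have h := Pool.Agent.Helper90.Big.goalC2 (fun s z => twi s z) continuous_twi twi_inj twi_zero 1 z
  have e : (fun z => twi 1 z) = twm cho := by
    funext z
    exact twi_one z
  have h' : PosAt (fun z => twi 1 z) z := h
  rwa [e] at h'

lemma twm_cont : Continuous (twm cho) := by
  have h : Continuous (fun z => twi 1 z) := continuous_twi.comp (Continuous.prodMk_right (1 : ℝ))
  have e : (fun z => twi 1 z) = twm cho := by
    funext z
    exact twi_one z
  rwa [e] at h

lemma twm_inj : Function.Injective (twm cho) := by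
  intro z w h
  rw [← twi_one, ← twi_one] at h
  exact twi_inj 1 h

theorem goalOR.{v} : GoalOR.{v} := by
  intro S _ _ O k T hO hkO hks hT φ hφ ψ hψ x hx hfx
  have hC1 := Pool.Agent.Helper90.Big.goalC1
  by_cases hxt : x ∈ k.target
  · set w : ℂ := k.symm x with hw
    have hws : w ∈ k.source := k.map_target hxt
    have hTs : twm cho w ∈ k.source := by
      rw [hks] at hws ⊢
      simpa [norm_twm] using hws
    have hfe : T x = k (twm cho w) := by
      rw [← hT.1 w hws, hw, k.right_inv hxt]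
    rw [hfe] at hfx
    have hφx : φ.symm (φ x) = x := φ.left_inv hx
    have p1 : PosAt (fun z => k.symm (φ.symm z)) (φ x) := hO.2 φ hφ k.symm hkO x ⟨hx, hxt⟩
    have ho : IsOpen (φ.target ∩ φ.symm ⁻¹' k.target) :=
      φ.isOpen_inter_preimage_symm k.open_target
    have hm : φ x ∈ φ.target ∩ φ.symm ⁻¹' k.target := by
      refine ⟨φ.map_source hx, ?_⟩
      rw [mem_preimage, hφx]
      exact hxt
    have c1 : ∀ᶠ z in 𝓝 (φ x), ContinuousAt (fun z => k.symm (φ.symm z)) z := by
      filter_upwards [ho.mem_nhds hm] with z hz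
      exact ContinuousAt.comp (g := k.symm) (k.continuousAt_symm hz.2)
        (φ.continuousAt_symm hz.1)
    have v1 : k.symm (φ.symm (φ x)) = w := by
      rw [hφx]
    have p2 : PosAt (fun z => twm cho (k.symm (φ.symm z))) (φ x) := by
      apply hC1 (fun z => k.symm (φ.symm z)) (twm cho) (φ x) p1 c1.self_of_nhds
      · rw [v1]
        exact twm_pos w
      · exact Filter.Eventually.of_forall (fun z => twm_cont.continuousAt)
      · exact Filter.Eventually.of_forall (fun z hz => twm_inj hz)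
      · exact c1
    have c2 : ∀ᶠ z in 𝓝 (φ x), ContinuousAt (fun z => twm cho (k.symm (φ.symm z))) z := by
      filter_upwards [c1] with z hz
      exact twm_cont.continuousAt.comp hz
    have v2 : twm cho (k.symm (φ.symm (φ x))) = twm cho w := by
      rw [hφx]
    have hkT : k.symm (k (twm cho w)) = twm cho w := k.left_inv hTs
    have p3 : PosAt (fun z => ψ (k z)) (twm cho w) := by
      have := hO.2 k.symm hkO ψ hψ (k (twm cho w)) ⟨k.map_source hTs, hfx⟩
      rw [OpenPartialHomeomorph.symm_symm, hkT] at this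
      exact this
    have ho3 : IsOpen (k.source ∩ k ⁻¹' ψ.source) := k.isOpen_inter_preimage ψ.open_source
    have hm3 : twm cho w ∈ k.source ∩ k ⁻¹' ψ.source := ⟨hTs, hfx⟩
    have p4 : PosAt (fun z => (fun y => ψ (k y)) ((fun z => twm cho (k.symm (φ.symm z))) z))
        (φ x) := by
      apply hC1 (fun z => twm cho (k.symm (φ.symm z))) (fun y => ψ (k y)) (φ x) p2
        c2.self_of_nhds
      · rw [v2]
        exact p3
      · rw [v2]
        filter_upwards [ho3.mem_nhds hm3] with z hz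
        exact ContinuousAt.comp (g := ψ) (ψ.continuousAt hz.2) (k.continuousAt hz.1)
      · rw [v2]
        filter_upwards [ho3.mem_nhds hm3] with z hz hzz
        have e1 := ψ.injOn hz.2 hfx hzz
        exact k.injOn hz.1 hTs e1
      · exact c2
    refine posAt_congr' p4 ?_
    filter_upwards [ho.mem_nhds hm] with z hz
    have e1 : φ.symm z = k (k.symm (φ.symm z)) := (k.right_inv hz.2).symm
    have e2 : T (φ.symm z) = k (twm cho (k.symm (φ.symm z))) := by
      rw [← hT.1 _ (k.map_target hz.2), k.right_inv hz.2]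
    rw [e2]
  · have hsub : {z : ℂ | 3 / 5 ≤ ‖z‖ ∧ ‖z‖ ≤ 3 / 2} ⊆ k.source := by
      rw [hks]
      rintro z ⟨h1, h2⟩
      exact ⟨by linarith, by linarith⟩
    have hcomp : IsCompact {z : ℂ | 3 / 5 ≤ ‖z‖ ∧ ‖z‖ ≤ 3 / 2} := by
      apply Metric.isCompact_of_isClosed_isBounded
      · exact (isClosed_le continuous_const continuous_norm).inter
          (isClosed_le continuous_norm continuous_const)
      · refine (Metric.isBounded_closedBall (x := (0 : ℂ)) (r := 3 / 2)).subset ?_
        rintro z ⟨_, h2⟩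
        simpa using h2
    have hcl : IsClosed (k '' {z : ℂ | 3 / 5 ≤ ‖z‖ ∧ ‖z‖ ≤ 3 / 2}) :=
      (hcomp.image_of_continuousOn (k.continuousOn.mono hsub)).isClosed
    have hxn : x ∉ k '' {z : ℂ | 3 / 5 ≤ ‖z‖ ∧ ‖z‖ ≤ 3 / 2} := by
      rintro ⟨z, hz, rfl⟩
      exact hxt (k.map_source (hsub hz))
    have hfe : T x = x := hT.2 x hxn
    rw [hfe] at hfx
    have p1 : PosAt (fun z => ψ (φ.symm z)) (φ x) := hO.2 φ hφ ψ hψ x ⟨hx, hfx⟩
    refine posAt_congr' p1 ?_
    have ho : IsOpen (φ.target ∩ φ.symm ⁻¹' (k '' {z : ℂ | 3 / 5 ≤ ‖z‖ ∧ ‖z‖ ≤ 3 / 2})ᶜ) :=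
      φ.isOpen_inter_preimage_symm hcl.isOpen_compl
    have hm : φ x ∈ φ.target ∩ φ.symm ⁻¹' (k '' {z : ℂ | 3 / 5 ≤ ‖z‖ ∧ ‖z‖ ≤ 3 / 2})ᶜ := by
      refine ⟨φ.map_source hx, ?_⟩
      rw [mem_preimage, φ.left_inv hx]
      exact hxn
    filter_upwards [ho.mem_nhds hm] with z hz
    rw [hT.2 _ hz.2]

end Pool.Agent.Helper81.LN
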